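import Pool.Agent.RTF.Stmts
import Pool.Agent.Helper52_CD.Ras

/-!
# Squad RTF, module FINR: groups with a subgroup of finite index that has a filtration
-/

namespace Pool.Agent.RTF.H63

open Pool.Agent.Glue Pool.Agent.FB Pool.Agent.CD Pool.Agent.CD.Vir

noncomputable section

theorem finr (hC : CfgStmt) (hU : UniStmt) (hN : CntStmt) (hP : RpdStmt) (hB : RbtStmt) :
    FinrStmt := by
  intro G _ G' hG' hres I _ C n hA hD i hi
  let ψ : G' →* G := G'.subtype
  have hψ : Function.Injective ψ := Subtype.val_injective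
  let R : Subgroup G := ψ.range
  have hR : R = G' := Subgroup.range_subtype G'
  have hRf : R.FiniteIndex := by rw [hR]; exact hG'
  obtain ⟨S, hS, h1S⟩ := Subgroup.exists_isComplement_right R 1
  have hSf : Finite S := hS.finite_right
  have := Fintype.ofFinite S
  have hT : Tv ψ (Subtype.val : S → G) := by
    constructor
    · rintro ⟨a, s⟩ ⟨b, t⟩ hab
      have h1 := hS.1 (a₁ := (⟨ψ a, a, rfl⟩, s)) (a₂ := (⟨ψ b, b, rfl⟩, t)) hab
      have h2 : ψ a = ψ b := congrArg (fun p : R × S => (p.1 : G)) h1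
      have h3 : s = t := congrArg Prod.snd h1
      rw [hψ h2, h3]
    · intro g
      obtain ⟨⟨⟨_, a, rfl⟩, s⟩, hg⟩ := hS.2 g
      exact ⟨(a, s), hg⟩
  have hA' := ras G' G S ψ _ hT I C hA
  have hcount : Countable G' := hN G' (S × I) (resC hT C) hA'
  refine hB G' G S ψ _ hT ⟨1, h1S⟩ rfl I C i ?_
  exact hC G' (hU G' hcount hres) (S × I) (resC hT C) n hA' (hP G' G S ψ _ hT I C n hD) i hi

end

end Pool.Agent.RTF.H63
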